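import Pool.Agent.Helper45.HD.Dig

set_option autoImplicit false

/-!
Hidden digits: the target is correlated with its noisy version (A), the randomised guess (B).
-/

namespace Pool.Agent.Helper37.HD

open Finset Pool.Agent.Helper45.HD
open Pool.Agent.Helper57.U2 (rep IsChoice upTo digit)

/-! ### linearity -/

theorem Ed_congr {b i : ℕ} {g h : ℕ → ℝ} (e : ∀ n, g n = h n) (n : ℕ) : Ed b i g n = Ed b i h n := by
  have : g = h := funext e
  rw [this]

theorem edSmul (b i : ℕ) (c : ℝ) (g : ℕ → ℝ) (n : ℕ) :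
    Ed b i (fun n => c * g n) n = c * Ed b i g n := by
  unfold Ed
  rw [← Finset.mul_sum, mul_div_assoc]

theorem Ed_const {b : ℕ} (hb : 0 < b) (i : ℕ) (c : ℝ) (n : ℕ) : Ed b i (fun _ => c) n = c := by
  unfold Ed
  have : (b : ℝ) ≠ 0 := by exact_mod_cast hb.ne'
  rw [Finset.sum_const, Finset.card_range, nsmul_eq_mul]
  field_simp

theorem edAdd (b i : ℕ) (g h : ℕ → ℝ) (n : ℕ) :
    Ed b i (fun n => g n + h n) n = Ed b i g n + Ed b i h n := by
  unfold Ed
  rw [Finset.sum_add_distrib, add_div]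

theorem Ed_sum (b i : ℕ) {ι : Type} (s : Finset ι) (g : ι → ℕ → ℝ) (n : ℕ) :
    Ed b i (fun n => ∑ a ∈ s, g a n) n = ∑ a ∈ s, Ed b i (g a) n := by
  unfold Ed
  rw [Finset.sum_comm, Finset.sum_div]

theorem Ed_abs {b : ℕ} (hb : 0 < b) (i : ℕ) {g : ℕ → ℝ} {M : ℝ} (hg : ∀ n, |g n| ≤ M) (n : ℕ) :
    |Ed b i g n| ≤ M := by
  unfold Ed
  have hb' : (0 : ℝ) < b := by exact_mod_cast hb
  rw [abs_div, abs_of_pos hb', div_le_iff₀ hb']
  calc |∑ u ∈ range b, g (setd b i u n)| ≤ ∑ u ∈ range b, |g (setd b i u n)| :=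
        Finset.abs_sum_le_sum_abs _ _
    _ ≤ ∑ _u ∈ range b, M := Finset.sum_le_sum fun u _ => hg _
    _ = M * b := by rw [Finset.sum_const, Finset.card_range, nsmul_eq_mul, mul_comm]

theorem Tn_abs {b : ℕ} (hb : 0 < b) {t : ℝ} (ht0 : 0 ≤ t) (ht1 : t ≤ 1) (k : ℕ) {g : ℕ → ℝ} {M : ℝ}
    (hg : ∀ n, |g n| ≤ M) : ∀ n, |Tn b t k g n| ≤ M := by
  induction k with
  | zero => exact hg
  | succ k ih =>
    intro n
    show |(1 - t) * Tn b t k g n + t * Ed b k (Tn b t k g) n| ≤ M
    have h1 := ih n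
    have h2 := Ed_abs hb k ih n
    calc _ ≤ |(1 - t) * Tn b t k g n| + |t * Ed b k (Tn b t k g) n| := abs_add_le _ _
      _ = (1 - t) * |Tn b t k g n| + t * |Ed b k (Tn b t k g) n| := by
          rw [abs_mul, abs_mul, abs_of_nonneg ht0, abs_of_nonneg (by linarith : 0 ≤ 1 - t)]
      _ ≤ (1 - t) * M + t * M := by
          refine add_le_add (mul_le_mul_of_nonneg_left h1 (by linarith))
            (mul_le_mul_of_nonneg_left h2 ht0)
      _ = M := by ring

theorem Tn_sum (b : ℕ) (t : ℝ) (k : ℕ) {ι : Type} (s : Finset ι) (g : ι → ℕ → ℝ) (n : ℕ) :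
    Tn b t k (fun n => ∑ a ∈ s, g a n) n = ∑ a ∈ s, Tn b t k (g a) n := by
  induction k generalizing n with
  | zero => rfl
  | succ k ih =>
    show (1 - t) * Tn b t k (fun n => ∑ a ∈ s, g a n) n +
      t * Ed b k (Tn b t k (fun n => ∑ a ∈ s, g a n)) n =
      ∑ a ∈ s, ((1 - t) * Tn b t k (g a) n + t * Ed b k (Tn b t k (g a)) n)
    rw [ih, Ed_congr ih, Ed_sum, Finset.sum_add_distrib, ← Finset.mul_sum, ← Finset.mul_sum]

theorem Tn_zero (b : ℕ) (t : ℝ) (k : ℕ) (n : ℕ) : Tn b t k (fun _ => 0) n = 0 := by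
  have h := Tn_sum b t k (∅ : Finset ℕ) (fun _ _ => 0) n
  simpa using h

/-! ### the noise operator as a mean of projections -/

/-- the average over the digits in `R` below `k` -/
noncomputable def ER (b : ℕ) : ℕ → Finset ℕ → (ℕ → ℝ) → ℕ → ℝ
  | 0, _, g => g
  | k + 1, R, g => if k ∈ R then Ed b k (ER b k R g) else ER b k R g

theorem ER_congr (b k : ℕ) {R R' : Finset ℕ} (h : ∀ i < k, i ∈ R ↔ i ∈ R') (g : ℕ → ℝ) :
    ER b k R g = ER b k R' g := by
  induction k with
  | zero => rfl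
  | succ k ih =>
    have h1 := ih fun i hi => h i (by omega)
    show (if k ∈ R then Ed b k (ER b k R g) else ER b k R g) =
      if k ∈ R' then Ed b k (ER b k R' g) else ER b k R' g
    rw [h1]
    by_cases h2 : k ∈ R
    · rw [if_pos h2, if_pos ((h k (by omega)).mp h2)]
    · rw [if_neg h2, if_neg (fun h3 => h2 ((h k (by omega)).mpr h3))]

/-- the probability that the hidden set is `R` -/
noncomputable def wR (t : ℝ) (K : ℕ) (R : Finset ℕ) : ℝ := t ^ #R * (1 - t) ^ (K - #R)

theorem sum_wR (t : ℝ) (k : ℕ) (F : Finset ℕ → ℝ) : ∑ R ∈ (range (k + 1)).powerset,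
    wR t (k + 1) R * F R = (1 - t) * ∑ R ∈ (range k).powerset, wR t k R * F R +
      t * ∑ R ∈ (range k).powerset, wR t k R * F (insert k R) := by
  rw [Finset.range_add_one, Finset.sum_powerset_insert Finset.notMem_range_self, Finset.mul_sum,
    Finset.mul_sum]
  congr 1
  · refine Finset.sum_congr rfl fun R hR => ?_
    rw [Finset.mem_powerset] at hR
    have h1 := Finset.card_le_card hR
    rw [Finset.card_range] at h1
    unfold wR
    have h2 : k + 1 - #R = (k - #R) + 1 := by omega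
    rw [h2, pow_succ]
    ring
  · refine Finset.sum_congr rfl fun R hR => ?_
    rw [Finset.mem_powerset] at hR
    have h1 : k ∉ R := fun h => Finset.notMem_range_self (hR h)
    unfold wR
    rw [Finset.card_insert_of_notMem h1, Nat.add_sub_add_right, pow_succ]
    ring

theorem Tn_eq (b : ℕ) (t : ℝ) (k : ℕ) (g : ℕ → ℝ) (n : ℕ) :
    Tn b t k g n = ∑ R ∈ (range k).powerset, wR t k R * ER b k R g n := by
  induction k generalizing n with
  | zero =>
    rw [Finset.range_zero, Finset.powerset_empty, Finset.sum_singleton]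
    unfold wR
    simp [Tn, ER]
  | succ k ih =>
    rw [sum_wR]
    show (1 - t) * Tn b t k g n + t * Ed b k (Tn b t k g) n = _
    rw [ih, Ed_congr ih]
    congr 1
    · congr 1
      refine Finset.sum_congr rfl fun R hR => ?_
      rw [Finset.mem_powerset] at hR
      have h1 : k ∉ R := fun h => Finset.notMem_range_self (hR h)
      show _ = wR t k R * (if k ∈ R then Ed b k (ER b k R g) else ER b k R g) n
      rw [if_neg h1]
    · congr 1
      rw [Ed_sum]
      refine Finset.sum_congr rfl fun R hR => ?_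
      rw [edSmul]
      show _ = wR t k R * (if k ∈ insert k R then Ed b k (ER b k (insert k R) g)
        else ER b k (insert k R) g) n
      rw [if_pos (Finset.mem_insert_self _ _), ER_congr b k (R := insert k R) (R' := R)]
      intro i hi
      rw [Finset.mem_insert]
      constructor
      · rintro (h1 | h1)
        · omega
        · exact h1
      · exact Or.inr

theorem wR_nonneg {t : ℝ} (ht0 : 0 ≤ t) (ht1 : t ≤ 1) (K : ℕ) (R : Finset ℕ) : 0 ≤ wR t K R :=
  mul_nonneg (pow_nonneg ht0 _) (pow_nonneg (by linarith) _)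

theorem sum_wR_one (t : ℝ) (k : ℕ) : ∑ R ∈ (range k).powerset, wR t k R = 1 := by
  induction k with
  | zero =>
    rw [Finset.range_zero, Finset.powerset_empty, Finset.sum_singleton]
    unfold wR
    simp
  | succ k ih =>
    have h := sum_wR t k (fun _ => 1)
    simp only [mul_one] at h
    rw [h, ih]
    ring

/-- the averages are invariant -/
theorem Ed_ER {b : ℕ} (hb : 2 ≤ b) (k : ℕ) (R : Finset ℕ) (g : ℕ → ℝ) {i : ℕ} (hi : i < k)
    (hiR : i ∈ R) : ∀ n, Ed b i (ER b k R g) n = ER b k R g n := by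
  induction k with
  | zero => omega
  | succ k ih =>
    intro n
    show Ed b i (if k ∈ R then Ed b k (ER b k R g) else ER b k R g) n =
      (if k ∈ R then Ed b k (ER b k R g) else ER b k R g) n
    by_cases hk : k ∈ R
    · rw [if_pos hk]
      by_cases hik : i = k
      · subst hik
        exact Ed_idem hb _ n
      · rw [Ed_comm hb]
        exact Ed_congr (ih (by omega)) n
    · rw [if_neg hk]
      have hik : i ≠ k := by
        rintro rfl
        exact hk hiR
      exact ih (by omega) n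

/-- the averages are projections -/
theorem sum_ER {b : ℕ} (hb : 2 ≤ b) {K : ℕ} (k : ℕ) (hk : k ≤ K) (R : Finset ℕ) (g h : ℕ → ℝ)
    (hh : ∀ i < k, i ∈ R → ∀ n, Ed b i h n = h n) :
    ∑ n ∈ range (b ^ K), h n * ER b k R g n = ∑ n ∈ range (b ^ K), h n * g n := by
  induction k with
  | zero => rfl
  | succ k ih =>
    rw [← ih (by omega) fun i hi => hh i (by omega)]
    show ∑ n ∈ range (b ^ K), h n * (if k ∈ R then Ed b k (ER b k R g) else ER b k R g) n = _
    by_cases h1 : k ∈ R
    · rw [if_pos h1, Ed_symm hb (by omega)]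
      exact Finset.sum_congr rfl fun n _ => by rw [hh k (by omega) h1]
    · rw [if_neg h1]

theorem upTo_subset (D : Set ℕ) (x : ℕ) : upTo D x ⊆ range x := by
  classical
  intro n hn
  unfold upTo at hn
  exact (Finset.mem_filter.mp hn).1

theorem digLt {b : ℕ} (hb : 0 < b) (i n : ℕ) : digit b i n < b := Nat.mod_lt _ hb

theorem sum_ite_digit {b : ℕ} (hb : 0 < b) (i n : ℕ) (F : ℕ → ℝ) :
    ∑ a ∈ range b, (if digit b i n = a then (1 : ℝ) else 0) * F a = F (digit b i n) := by
  rw [Finset.sum_eq_single (digit b i n)]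
  · rw [if_pos rfl, one_mul]
  · intro a _ ha
    rw [if_neg (Ne.symm ha), zero_mul]
  · intro h
    exact absurd (Finset.mem_range.mpr (digLt hb i n)) h

theorem tg_abs {b : ℕ} (hb : 0 < b) (D : Finset ℕ) (f : ℕ → ℕ) (i a n : ℕ) :
    |tg b D f i a n| ≤ 1 := by
  have hb1 : (1 : ℝ) ≤ b := by exact_mod_cast hb
  have h1 : 0 ≤ 1 / (b : ℝ) := by positivity
  have h2 : 1 / (b : ℝ) ≤ 1 := by
    rw [div_le_one (by linarith)]
    exact hb1
  unfold tg
  split_ifs
  · rw [abs_le]
    constructor <;> linarith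
  · rw [abs_le]
    constructor <;> linarith
  · simp

theorem tg_sum {b : ℕ} (hb : 0 < b) (D : Finset ℕ) (f : ℕ → ℕ) (i n : ℕ) :
    ∑ a ∈ range b, tg b D f i a n = 0 := by
  have hb' : (b : ℝ) ≠ 0 := by exact_mod_cast hb.ne'
  unfold tg
  by_cases h : n ∈ D
  · simp only [if_pos h]
    rw [Finset.sum_sub_distrib, Finset.sum_const, Finset.card_range, nsmul_eq_mul]
    have h1 := sum_ite_digit hb i (f n) (fun _ => 1)
    simp only [mul_one] at h1
    rw [h1]
    field_simp
    ring
  · simp only [if_neg h]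
    simp

theorem tg_sq {b : ℕ} (hb : 0 < b) (D : Finset ℕ) (f : ℕ → ℕ) (i n : ℕ) :
    ∑ a ∈ range b, tg b D f i a n ^ 2 ≤ 1 := by
  have hb' : (b : ℝ) ≠ 0 := by exact_mod_cast hb.ne'
  have hb0 : (0 : ℝ) < b := by exact_mod_cast hb
  unfold tg
  by_cases h : n ∈ D
  · simp only [if_pos h]
    have h1 := sum_ite_digit hb i (f n) (fun _ => 1 - 2 / (b : ℝ))
    have h2 : ∀ a, ((if digit b i (f n) = a then (1 : ℝ) else 0) - 1 / b) ^ 2 =
        (if digit b i (f n) = a then (1 : ℝ) else 0) * (1 - 2 / (b : ℝ)) + 1 / (b : ℝ) ^ 2 := by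
      intro a
      split_ifs
      · field_simp
        ring
      · field_simp
        ring
    rw [Finset.sum_congr rfl (fun a _ => h2 a), Finset.sum_add_distrib, h1, Finset.sum_const,
      Finset.card_range, nsmul_eq_mul]
    have h3 : (1 - 2 / (b : ℝ)) + b * (1 / (b : ℝ) ^ 2) = 1 - 1 / b := by
      field_simp
      ring
    rw [h3]
    have : 0 < 1 / (b : ℝ) := by positivity
    linarith
  · simp only [if_neg h]
    simp

/-- a guess and the target -/
theorem guess_le {b : ℕ} (hb : 0 < b) (D : Finset ℕ) (f : ℕ → ℕ) {N : ℕ} (hD : D ⊆ range N) (i : ℕ)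
    (c : ℕ → ℕ) : ∑ n ∈ D, (if c n = digit b i (f n) then (1 : ℝ) else 0) - 1 / b * #D ≤
      ∑ a ∈ range b, ∑ n ∈ range N, (if c n = a then (1 : ℝ) else 0) * tg b D f i a n := by
  rw [Finset.sum_comm]
  have h1 : ∑ n ∈ range N, ∑ a ∈ range b, (if c n = a then (1 : ℝ) else 0) * tg b D f i a n =
      ∑ n ∈ D, ∑ a ∈ range b, (if c n = a then (1 : ℝ) else 0) * tg b D f i a n := by
    symm
    refine Finset.sum_subset hD fun n _ hn => ?_
    refine Finset.sum_eq_zero fun a _ => ?_
    unfold tg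
    rw [if_neg hn, mul_zero]
  rw [h1]
  have h2 : 1 / (b : ℝ) * #D = ∑ _n ∈ D, 1 / (b : ℝ) := by
    rw [Finset.sum_const, nsmul_eq_mul, mul_comm]
  rw [h2, ← Finset.sum_sub_distrib]
  refine Finset.sum_le_sum fun n hn => ?_
  have h3 : ∀ a ∈ range b, (if c n = a then (1 : ℝ) else 0) * tg b D f i a n =
      if a = c n then ((if digit b i (f n) = a then (1 : ℝ) else 0) - 1 / b) else 0 := by
    intro a _
    unfold tg
    rw [if_pos hn]
    by_cases h4 : a = c n
    · rw [if_pos h4.symm, if_pos h4, one_mul]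
    · rw [if_neg (Ne.symm h4), if_neg h4, zero_mul]
  rw [Finset.sum_congr rfl h3, Finset.sum_ite_eq']
  have hb0 : 0 ≤ 1 / (b : ℝ) := by positivity
  by_cases h5 : c n ∈ range b
  · rw [if_pos h5]
    by_cases h6 : c n = digit b i (f n)
    · rw [if_pos h6, if_pos h6.symm]
    · rw [if_neg h6, if_neg (Ne.symm h6)]
  · rw [if_neg h5]
    have h6 : c n ≠ digit b i (f n) := by
      intro h7
      apply h5
      rw [h7]
      exact Finset.mem_range.mpr (digLt hb i _)
    rw [if_neg h6]
    linarith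

theorem Ed_ind {b : ℕ} (hb : 0 < b) {g : ℕ → ℝ} {i : ℕ} (hg : ∀ u < b, ∀ n, g (setd b i u n) = g n)
    (n : ℕ) : Ed b i g n = g n := by
  have hb' : (b : ℝ) ≠ 0 := by exact_mod_cast hb.ne'
  unfold Ed
  rw [Finset.sum_congr rfl (fun u hu => hg u (Finset.mem_range.mp hu) n), Finset.sum_const,
    Finset.card_range, nsmul_eq_mul]
  field_simp

/-- **(A)** -/
theorem stEr : StEr := by
  classical
  intro b K t ε hb ht0 ht1 hε D f J hJ
  have hb0 : 0 < b := by omega
  have hbR : (0 : ℝ) < b := by exact_mod_cast hb0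
  set D₀ := upTo D (b ^ K) with hD₀
  have hDs : D₀ ⊆ range (b ^ K) := upTo_subset D _
  set g : ℕ → ℕ → ℕ → ℝ := fun i a => tg b D₀ f i a with hg
  obtain ⟨hinv, hadv⟩ := hJ
  rcases Nat.eq_zero_or_pos K with hK | hK
  · subst hK
    simp
  have hKR : (0 : ℝ) < K := by exact_mod_cast hK
  -- the right side is a mean of squares
  have hS : ∑ i ∈ range K, ∑ a ∈ range b, ∑ n ∈ range (b ^ K), g i a n * Tn b t K (g i a) n =
      ∑ R ∈ (range K).powerset, wR t K R * ∑ i ∈ range K, ∑ a ∈ range b,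
        ∑ n ∈ range (b ^ K), ER b K R (g i a) n ^ 2 := by
    have h1 : ∀ i a, ∑ n ∈ range (b ^ K), g i a n * Tn b t K (g i a) n =
        ∑ R ∈ (range K).powerset, wR t K R * ∑ n ∈ range (b ^ K), ER b K R (g i a) n ^ 2 := by
      intro i a
      have h2 : ∀ n, g i a n * Tn b t K (g i a) n =
          ∑ R ∈ (range K).powerset, wR t K R * (ER b K R (g i a) n * g i a n) := by
        intro n
        rw [Tn_eq, Finset.mul_sum]
        exact Finset.sum_congr rfl fun R _ => by ring
      rw [Finset.sum_congr rfl (fun n _ => h2 n), Finset.sum_comm]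
      refine Finset.sum_congr rfl fun R _ => ?_
      rw [← Finset.mul_sum]
      congr 1
      rw [← sum_ER hb K le_rfl R (g i a) (ER b K R (g i a)) fun j hj hjR n =>
        Ed_ER hb K R _ hj hjR n]
      exact Finset.sum_congr rfl fun n _ => by ring
    rw [Finset.sum_congr rfl (fun i _ => Finset.sum_congr rfl (fun a _ => h1 i a))]
    rw [Finset.sum_congr rfl (fun i _ => Finset.sum_comm), Finset.sum_comm]
    refine Finset.sum_congr rfl fun R _ => ?_
    rw [Finset.mul_sum]
    exact Finset.sum_congr rfl fun i _ => by rw [Finset.mul_sum]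
  rw [show (∑ i ∈ range K, ∑ a ∈ range b, ∑ n ∈ range (b ^ K),
      tg b D₀ f i a n * Tn b t K (tg b D₀ f i a) n) = _ from hS]
  set S := ∑ R ∈ (range K).powerset, wR t K R * ∑ i ∈ range K, ∑ a ∈ range b,
        ∑ n ∈ range (b ^ K), ER b K R (g i a) n ^ 2 with hSdef
  -- the indicators
  set y : Finset ℕ → ℕ → ℕ → ℕ → ℝ := fun R i a n => if J R i n = a then 1 else 0 with hy
  have hyinv : ∀ R i a j, j ∈ R → ∀ n, Ed b j (y R i a) n = y R i a n := by
    intro R i a j hj n
    refine Ed_ind hb0 (fun u hu m => ?_) n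
    have h1 : J R i (setd b j u m) = J R i m := by
      refine hinv R i _ _ fun q _ hqR => ?_
      refine digit_setd_ne hb hu m ?_
      rintro rfl
      exact hqR hj
    rw [hy]
    simp only [h1]
  have hadv2 : ε * K * #D₀ ≤ ∑ R ∈ (range K).powerset, wR t K R * ∑ i ∈ range K,
      ∑ a ∈ range b, ∑ n ∈ range (b ^ K), y R i a n * ER b K R (g i a) n := by
    have h1 : ∀ R, ∑ n ∈ D₀, (#{i ∈ range K | J R i n = digit b i (f n)} : ℝ) -
        1 / b * (K * #D₀) ≤ ∑ i ∈ range K, ∑ a ∈ range b, ∑ n ∈ range (b ^ K),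
          y R i a n * ER b K R (g i a) n := by
      intro R
      have h2 : ∑ n ∈ D₀, (#{i ∈ range K | J R i n = digit b i (f n)} : ℝ) =
          ∑ i ∈ range K, ∑ n ∈ D₀, (if J R i n = digit b i (f n) then (1 : ℝ) else 0) := by
        rw [Finset.sum_comm]
        refine Finset.sum_congr rfl fun n _ => ?_
        rw [Finset.card_filter]
        push_cast
        rfl
      have h3 : 1 / (b : ℝ) * (K * #D₀) = ∑ _i ∈ range K, 1 / (b : ℝ) * #D₀ := by
        rw [Finset.sum_const, Finset.card_range, nsmul_eq_mul]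
        ring
      rw [h2, h3, ← Finset.sum_sub_distrib]
      refine Finset.sum_le_sum fun i _ => ?_
      refine (guess_le hb0 D₀ f hDs i (J R i)).trans (le_of_eq ?_)
      refine Finset.sum_congr rfl fun a _ => ?_
      rw [sum_ER hb K le_rfl R (g i a) (y R i a) fun j _ hjR n => hyinv R i a j hjR n]
    have h4 := sum_wR_one t K
    calc ε * K * #D₀ = (1 / b + ε) * (K * #D₀) - 1 / b * (K * #D₀) := by ring
      _ ≤ ∑ R ∈ (range K).powerset, wR t K R *
            ∑ n ∈ D₀, (#{i ∈ range K | J R i n = digit b i (f n)} : ℝ) - 1 / b * (K * #D₀) :=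
          sub_le_sub_right hadv _
      _ = ∑ R ∈ (range K).powerset, wR t K R *
            (∑ n ∈ D₀, (#{i ∈ range K | J R i n = digit b i (f n)} : ℝ) - 1 / b * (K * #D₀)) := by
          rw [Finset.sum_congr rfl (fun R _ => mul_sub (wR t K R) _ _), Finset.sum_sub_distrib,
            ← Finset.sum_mul, h4, one_mul]
      _ ≤ _ := Finset.sum_le_sum fun R _ =>
          mul_le_mul_of_nonneg_left (h1 R) (wR_nonneg ht0.le ht1 K R)
  -- Cauchy-Schwarz, in the form 2 x y ≤ c x² + y² / c
  have hY : ∑ R ∈ (range K).powerset, wR t K R * ∑ i ∈ range K, ∑ a ∈ range b,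
      ∑ n ∈ range (b ^ K), y R i a n ^ 2 ≤ K * (b : ℝ) ^ K := by
    have h1 : ∀ R, ∑ i ∈ range K, ∑ a ∈ range b, ∑ n ∈ range (b ^ K), y R i a n ^ 2 ≤
        K * (b : ℝ) ^ K := by
      intro R
      calc ∑ i ∈ range K, ∑ a ∈ range b, ∑ n ∈ range (b ^ K), y R i a n ^ 2
          ≤ ∑ _i ∈ range K, (b : ℝ) ^ K := by
            refine Finset.sum_le_sum fun i _ => ?_
            rw [Finset.sum_comm]
            calc ∑ n ∈ range (b ^ K), ∑ a ∈ range b, y R i a n ^ 2
                ≤ ∑ _n ∈ range (b ^ K), (1 : ℝ) := by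
                  refine Finset.sum_le_sum fun n _ => ?_
                  have h2 : ∀ a ∈ range b, y R i a n ^ 2 = if a = J R i n then (1 : ℝ) else 0 := by
                    intro a _
                    rw [hy]
                    by_cases h3 : a = J R i n
                    · simp [h3]
                    · simp [h3, Ne.symm h3]
                  rw [Finset.sum_congr rfl h2, Finset.sum_ite_eq']
                  split_ifs <;> norm_num
              _ = (b : ℝ) ^ K := by
                  rw [Finset.sum_const, Finset.card_range, nsmul_eq_mul, mul_one]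
                  push_cast
                  rfl
        _ = K * (b : ℝ) ^ K := by
            rw [Finset.sum_const, Finset.card_range, nsmul_eq_mul]
    calc _ ≤ ∑ R ∈ (range K).powerset, wR t K R * (K * (b : ℝ) ^ K) :=
          Finset.sum_le_sum fun R _ =>
            mul_le_mul_of_nonneg_left (h1 R) (wR_nonneg ht0.le ht1 K R)
      _ = _ := by rw [← Finset.sum_mul, sum_wR_one, one_mul]
  have hcs : ∀ c : ℝ, 0 ≤ c → 2 * c * (ε * K * #D₀) ≤ c ^ 2 * (K * (b : ℝ) ^ K) + S := by
    intro c hc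
    have h1 : ∑ R ∈ (range K).powerset, wR t K R * ∑ i ∈ range K, ∑ a ∈ range b,
        ∑ n ∈ range (b ^ K), (c * y R i a n - ER b K R (g i a) n) ^ 2 =
        c ^ 2 * (∑ R ∈ (range K).powerset, wR t K R * ∑ i ∈ range K, ∑ a ∈ range b,
          ∑ n ∈ range (b ^ K), y R i a n ^ 2) -
        2 * c * (∑ R ∈ (range K).powerset, wR t K R * ∑ i ∈ range K,
          ∑ a ∈ range b, ∑ n ∈ range (b ^ K), y R i a n * ER b K R (g i a) n) + S := by
      rw [hSdef]
      simp only [Finset.mul_sum]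
      rw [← Finset.sum_sub_distrib, ← Finset.sum_add_distrib]
      refine Finset.sum_congr rfl fun R _ => ?_
      rw [← Finset.sum_sub_distrib, ← Finset.sum_add_distrib]
      refine Finset.sum_congr rfl fun i _ => ?_
      rw [← Finset.sum_sub_distrib, ← Finset.sum_add_distrib]
      refine Finset.sum_congr rfl fun a _ => ?_
      rw [← Finset.sum_sub_distrib, ← Finset.sum_add_distrib]
      exact Finset.sum_congr rfl fun n _ => by ring
    have h2 : 0 ≤ ∑ R ∈ (range K).powerset, wR t K R * ∑ i ∈ range K, ∑ a ∈ range b,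
        ∑ n ∈ range (b ^ K), (c * y R i a n - ER b K R (g i a) n) ^ 2 := by
      refine Finset.sum_nonneg fun R _ => mul_nonneg (wR_nonneg ht0.le ht1 K R) ?_
      positivity
    rw [h1] at h2
    have h3 := mul_le_mul_of_nonneg_left hadv2 (by positivity : 0 ≤ 2 * c)
    have h4 := mul_le_mul_of_nonneg_left hY (sq_nonneg c)
    linarith
  have hN : (0 : ℝ) < (b : ℝ) ^ K := by positivity
  have hfin := hcs (ε * #D₀ / (b : ℝ) ^ K) (by positivity)
  have e1 : 2 * (ε * #D₀ / (b : ℝ) ^ K) * (ε * K * #D₀) = 2 * (ε ^ 2 * K * (#D₀ : ℝ) ^ 2) / (b : ℝ) ^ K := by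
    ring
  have e2 : (ε * #D₀ / (b : ℝ) ^ K) ^ 2 * (K * (b : ℝ) ^ K) =
      (ε ^ 2 * K * (#D₀ : ℝ) ^ 2) / (b : ℝ) ^ K := by
    field_simp
  rw [e1, e2] at hfin
  have e3 : (ε ^ 2 * K * (#D₀ : ℝ) ^ 2) / (b : ℝ) ^ K ≤ S := by
    have : 2 * (ε ^ 2 * K * (#D₀ : ℝ) ^ 2) / (b : ℝ) ^ K =
        (ε ^ 2 * K * (#D₀ : ℝ) ^ 2) / (b : ℝ) ^ K + (ε ^ 2 * K * (#D₀ : ℝ) ^ 2) / (b : ℝ) ^ K := by
      ring
    linarith
  rw [div_le_iff₀ hN] at e3
  linarith

/-- **(B)** -/
theorem stPi (hIn : StIn) : StPi := by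
  classical
  intro b K t ε δ hb ht0 ht1 hε hδ D f J hJ hD
  have hb0 : 0 < b := by omega
  have hbR : (2 : ℝ) ≤ b := by exact_mod_cast hb
  have hbne : (b : ℝ) ≠ 0 := by positivity
  have hA := stEr b K t ε hb ht0 ht1 hε D f J hJ
  set D₀ := upTo D (b ^ K) with hD₀
  have hDs : D₀ ⊆ range (b ^ K) := upTo_subset D _
  have hN : (0 : ℝ) < (b : ℝ) ^ K := by positivity
  have hcard : (#D₀ : ℝ) ≤ (b : ℝ) ^ K := by
    have h1 := Finset.card_le_card hDs
    rw [Finset.card_range] at h1
    exact_mod_cast h1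
  set g : ℕ → ℕ → ℕ → ℝ := fun i a => tg b D₀ f i a with hg
  set S := ∑ i ∈ range K, ∑ a ∈ range b, ∑ n ∈ range (b ^ K), g i a n * Tn b t K (g i a) n
    with hS
  have hA' : ε ^ 2 * K * (#D₀ : ℝ) ^ 2 ≤ (b : ℝ) ^ K * S := hA
  have hT1 : ∀ i a n, |Tn b t K (g i a) n| ≤ 1 := fun i a n =>
    Tn_abs hb0 ht0.le ht1 K (fun m => tg_abs hb0 D₀ f i a m) n
  have hT0 : ∀ i n, ∑ a ∈ range b, Tn b t K (g i a) n = 0 := by
    intro i n
    rw [← Tn_sum b t K (range b) (fun a => g i a) n]
    have h1 : (fun n => ∑ a ∈ range b, g i a n) = fun _ => (0 : ℝ) :=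
      funext fun m => tg_sum hb0 D₀ f i m
    rw [h1, Tn_zero]
  refine ⟨fun i n a => 1 / b + Tn b t K (g i a) n / (2 * b), ?_, ?_, ?_, ?_⟩
  · intro i n a
    have h1 := (abs_le.mp (hT1 i a n)).1
    have h2 : 1 / (b : ℝ) + Tn b t K (g i a) n / (2 * b) = (2 + Tn b t K (g i a) n) / (2 * b) := by
      field_simp
    simp only
    rw [h2]
    exact div_nonneg (by linarith) (by positivity)
  · intro i n
    have h1 : ∑ a ∈ range b, Tn b t K (g i a) n / (2 * (b : ℝ)) = 0 := by
      rw [← Finset.sum_div, hT0, zero_div]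
    rw [Finset.sum_add_distrib, h1, Finset.sum_const, Finset.card_range, nsmul_eq_mul, add_zero]
    field_simp
  · have h1 : ∑ n ∈ D₀, ∑ i ∈ range K, (1 / (b : ℝ) + Tn b t K (g i (digit b i (f n))) n / (2 * b)) =
        1 / b * K * #D₀ + S / (2 * b) := by
      have h2 : S = ∑ n ∈ D₀, ∑ i ∈ range K, Tn b t K (g i (digit b i (f n))) n := by
        rw [hS, Finset.sum_comm (s := D₀)]
        refine Finset.sum_congr rfl fun i _ => ?_
        rw [Finset.sum_comm]
        rw [← Finset.sum_subset hDs (f := fun n => ∑ a ∈ range b, g i a n * Tn b t K (g i a) n)]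
        · refine Finset.sum_congr rfl fun n hn => ?_
          have h3 : ∀ a, g i a n * Tn b t K (g i a) n =
              (if digit b i (f n) = a then (1 : ℝ) else 0) * Tn b t K (g i a) n -
                1 / b * Tn b t K (g i a) n := by
            intro a
            have h4 : g i a n = (if digit b i (f n) = a then (1 : ℝ) else 0) - 1 / b := by
              show tg b D₀ f i a n = _
              unfold tg
              rw [if_pos hn]
            rw [h4]
            ring
          rw [Finset.sum_congr rfl (fun a _ => h3 a), Finset.sum_sub_distrib, ← Finset.mul_sum,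
            hT0, mul_zero, sub_zero]
          exact sum_ite_digit hb0 i (f n) (fun a => Tn b t K (g i a) n)
        · intro n _ hn
          refine Finset.sum_eq_zero fun a _ => ?_
          have h4 : g i a n = 0 := by
            show tg b D₀ f i a n = 0
            unfold tg
            rw [if_neg hn]
          rw [h4, zero_mul]
      rw [h2]
      simp only [Finset.sum_add_distrib, Finset.sum_const, Finset.card_range, nsmul_eq_mul,
        ← Finset.sum_div]
      ring
    show _ ≤ ∑ n ∈ D₀, ∑ i ∈ range K, (1 / (b : ℝ) + Tn b t K (g i (digit b i (f n))) n / (2 * b))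
    rw [h1]
    have h5 : ε ^ 2 * δ ^ 2 * K * #D₀ ≤ S := by
      have h6 : ε ^ 2 * K * (#D₀ : ℝ) ^ 2 ≥ ε ^ 2 * K * (#D₀ * (δ * (b : ℝ) ^ K)) := by
        have : (0 : ℝ) ≤ #D₀ := Nat.cast_nonneg _
        have h7 : (#D₀ : ℝ) * (δ * (b : ℝ) ^ K) ≤ (#D₀ : ℝ) ^ 2 := by
          rw [sq]
          exact mul_le_mul_of_nonneg_left hD this
        exact mul_le_mul_of_nonneg_left h7 (by positivity)
      have h8 : (b : ℝ) ^ K * (ε ^ 2 * δ * K * #D₀) ≤ (b : ℝ) ^ K * S := by
        calc _ = ε ^ 2 * K * (#D₀ * (δ * (b : ℝ) ^ K)) := by ring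
          _ ≤ _ := h6
          _ ≤ _ := hA'
      have h9 := le_of_mul_le_mul_left h8 hN
      have hδ1 : δ ≤ 1 := by
        have : δ * (b : ℝ) ^ K ≤ 1 * (b : ℝ) ^ K := by linarith
        exact le_of_mul_le_mul_right this hN
      have h10 : ε ^ 2 * δ ^ 2 * K * #D₀ ≤ ε ^ 2 * δ * K * #D₀ := by
        have h11 : δ ^ 2 ≤ δ := by nlinarith
        have h12 : 0 ≤ ε ^ 2 * K * (#D₀ : ℝ) := by positivity
        nlinarith
      linarith
    have h6 : (1 / b + ε ^ 2 * δ ^ 2 / (2 * b)) * K * #D₀ =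
        1 / b * K * #D₀ + (ε ^ 2 * δ ^ 2 * K * #D₀) / (2 * b) := by
      field_simp
    rw [h6]
    have h7 : (ε ^ 2 * δ ^ 2 * K * #D₀) / (2 * b) ≤ S / (2 * b) :=
      div_le_div_of_nonneg_right h5 (by positivity)
    linarith
  · have h1 : ∀ i a j n, (1 / (b : ℝ) + Tn b t K (g i a) n / (2 * b) -
        Ed b j (fun n => 1 / (b : ℝ) + Tn b t K (g i a) n / (2 * b)) n) ^ 2 =
        1 / (4 * (b : ℝ) ^ 2) * (Tn b t K (g i a) n - Ed b j (Tn b t K (g i a)) n) ^ 2 := by
      intro i a j n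
      have h2 : Ed b j (fun n => 1 / (b : ℝ) + Tn b t K (g i a) n / (2 * b)) n =
          1 / b + 1 / (2 * b) * Ed b j (Tn b t K (g i a)) n := by
        rw [edAdd b j (fun _ => 1 / (b : ℝ)) (fun n => Tn b t K (g i a) n / (2 * b)), Ed_const hb0,
          ← edSmul]
        congr 1
        exact Ed_congr (fun m => by ring) n
      rw [h2]
      field_simp
      ring
    simp only [h1]
    have h3 : ∀ i a, ∑ j ∈ range K, ∑ n ∈ range (b ^ K), 1 / (4 * (b : ℝ) ^ 2) *
        (Tn b t K (g i a) n - Ed b j (Tn b t K (g i a)) n) ^ 2 ≤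
        1 / (4 * (b : ℝ) ^ 2) * ((∑ n ∈ range (b ^ K), g i a n ^ 2) / t) := by
      intro i a
      simp only [← Finset.mul_sum]
      exact mul_le_mul_of_nonneg_left (hIn b K t hb ht0 ht1 (g i a)) (by positivity)
    calc _ ≤ ∑ i ∈ range K, ∑ a ∈ range b,
          1 / (4 * (b : ℝ) ^ 2) * ((∑ n ∈ range (b ^ K), g i a n ^ 2) / t) :=
          Finset.sum_le_sum fun i _ => Finset.sum_le_sum fun a _ => h3 i a
      _ = ∑ i ∈ range K, 1 / (4 * (b : ℝ) ^ 2) / t *
          ∑ n ∈ range (b ^ K), ∑ a ∈ range b, g i a n ^ 2 := by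
          refine Finset.sum_congr rfl fun i _ => ?_
          rw [Finset.sum_comm (s := range (b ^ K)), Finset.mul_sum]
          exact Finset.sum_congr rfl fun a _ => by ring
      _ ≤ ∑ _i ∈ range K, 1 / (4 * (b : ℝ) ^ 2) / t * (b : ℝ) ^ K := by
          refine Finset.sum_le_sum fun i _ => mul_le_mul_of_nonneg_left ?_ (by positivity)
          calc _ ≤ ∑ _n ∈ range (b ^ K), (1 : ℝ) :=
                Finset.sum_le_sum fun n _ => tg_sq hb0 D₀ f i n
            _ = (b : ℝ) ^ K := by
                rw [Finset.sum_const, Finset.card_range, nsmul_eq_mul, mul_one]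
                push_cast
                rfl
      _ = K * (b : ℝ) ^ K / (4 * (b : ℝ) ^ 2 * t) := by
          rw [Finset.sum_const, Finset.card_range, nsmul_eq_mul]
          field_simp
      _ ≤ K * (b : ℝ) ^ K / (16 * t) := by
          refine div_le_div_of_nonneg_left (by positivity) (by positivity) ?_
          have : (4 : ℝ) ≤ (b : ℝ) ^ 2 := by nlinarith
          nlinarith

end Pool.Agent.Helper37.HD
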